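import Pool.Agent.Run7.h509.Vs

/-!
# Vassiliev invariants of bounded order detect highly twisted diagrams on series-parallel graphs

Diagrams: `Pool.Agent.H891R2.Jones.Diagram` (`Diagram`: oriented diagrams with marked points; the arcs only say
which marked points are joined, so planarity is not required; `Diagram.IsClosed`: the pieces fit together to
closed oriented curves) and `Pool.Agent.H891R2.MT.Defs` (`UDiagram`, `Orients D U`: `D` is `U` with directions).

Vassiliev invariants: `Pool.Agent.H832R3.VJ.Defs` (`Dia`: an oriented diagram with the finite set of its marked
points; `Move`: relabelling, subdivision of strands and the Reidemeister moves; `sing`: extension to diagrams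
with double points by the Vassiliev skein relation; `IsVassiliev n v`: `v` is an invariant of oriented links of
order at most `n`; `Separated d X Y`: some integer valued Vassiliev invariant of order at most `d` has
different values on `X` and `Y`; `unknot`).

Templates: `Pool.Agent.H832R3.TW.Defs` (`Corner k`: the `4 k` corners of `k` boxes; a template is the list
`arcs` of the pairs of corners joined outside of the boxes; `twisted arcs n`: the diagram in which the box `e`
contains a row of `|n e|` crossings of the kind given by the sign of `n e`; `loops arcs S`: the number of
components if the boxes `e ∈ S` contain two vertical strands (along the row) and the other boxes two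
horizontal ones (the box is cut)).  Every link diagram whose crossings are divided into `k` twist regions
(rows of crossings of the same kind) is of the form `twisted arcs n`.

New definitions (`Pool.Agent.Run7.h509.Tp`, `Tp3`, `Defs`, `Vs`):

* `ClosedT arcs`: every corner is joined by an arc to exactly one other corner.
* `pieces arcs X`: the number of connected pieces of the diagram in which the boxes outside `X` are cut and every
  box in `X` counts as one piece with its four corners.
* `ReducedT arcs Y`: the diagram remains connected if one or two of the boxes in `Y` are cut.  (A box which
  disconnects the diagram if it is cut is nugatory; two boxes which disconnect a plane diagram can be united by a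
  flype.)
* `SpansT arcs Y`: `|Yᶜ| + pieces Yᶜ = loops ∅`; the boxes outside `Y`, as edges between the components of the
  state `∅` (all boxes cut), form a forest (always true for `Y = univ`).
* `gT arcs`: the rank function of the cycle matroid of the graph `G` whose vertices are the components of the
  state `∅` and whose edges are the boxes: `gT arcs X = pieces ∅ - pieces X`.
* `SP r Y C`: the minor of the matroid with rank function `r` with the elements `Y`, in which the elements
  of `C` are contracted and all others are deleted, is series-parallel: it can be reduced to the empty
  matroid by deleting loops, contracting coloops, deleting one of two parallel elements and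
  contracting one of two elements in series.
* `ordT k s = 2^k (12 k + 1) + 4 (k + s + 1)`.

So `SP (gT arcs) univ ∅` says that the graph `G` is series-parallel.

Proof: see `BalancedTwistOrder`.  If `L(n)` is not separated from the unknot, then its normalised bracket is `1`, and
the sum of `∏_{e ∈ Q} (u e - 1)` over the sets `Q` of boxes which span the dual of the cycle matroid of `G` vanishes
for all `u` which are constant on the clusters.  By Cramer's rule there is such a vector with `|u e| = 1` and
`u e ≠ 1` for all `e` with `|n e| > k k! (4 k + 1)`.  But for a series-parallel matroid without loops and parallel
elements the sum is not zero if the elements with `u e ≠ 1` span.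
-/

set_option autoImplicit false

namespace Pool.Agent.Results.MP_5f6b43_gt.SeriesParallelOrder

open Finset Pool.Agent.H891R2.Jones Pool.Agent.H891R2.MT Pool.Agent.H832R3.TW Pool.Agent.H832R3.VJ Run7.h509 Run7.h509.Tp Run7.h509.Vs

/-- Let `arcs` be a reduced closed template with `k ≥ 1` boxes for which the graph, with the components of the
state `∅` as vertices and the boxes as edges, is series-parallel.  Let `n ∈ ℤ^k`, with arbitrary signs, have
`|n e| > k k! (4 k + 1)` for all boxes `e` in a spanning set `A` (for example for all boxes).  Then the link with
`|n e|` crossings in the box `e`, with any directions, is separated from the unknot by a Vassiliev invariant of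
order at most `ordT k 0 = 2^k (12 k + 1) + 4 (k + 1)`, a number which does not depend on `n`. -/
theorem result {k : ℕ} (arcs : List (Corner k × Corner k)) (hk : 0 < k) (ho : ClosedT arcs)
    (hred : ReducedT arcs Finset.univ) (hSP : SP (gT arcs) Finset.univ ∅) (A : Finset (Fin k))
    (hA : SpansT arcs A) (n : Fin k → ℤ) (hn : ∀ e ∈ A, (k * k.factorial * (4 * k + 1) : ℤ) < |n e|)
    (D : Diagram (Ribbon.Pt n)) (hD : Orients D (twisted arcs n)) (_ : D.IsClosed) :
    Separated (ordT k 0) ⟨_, inferInstance, D⟩ unknot := by
  have key := spT (Or.inl ho) hk hred hSP A hA 0 n (fun e he => by
    have := hn e he
    push_cast
    simpa using this) D hD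
  by_contra hs
  exact key (one_span 0 (one_of_hidden arcs hk n D hD hs))

end Pool.Agent.Results.MP_5f6b43_gt.SeriesParallelOrder
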