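import Pool.Agent.Run7.h509.Vs

/-!
# Vassiliev invariants of bounded order detect highly twisted diagrams with a series-parallel part

Diagrams: `Pool.Agent.H891R2.Jones.Diagram` (`Diagram`: oriented diagrams with marked points; the arcs only say
which marked points are joined, so planarity is not required; `Diagram.IsClosed`: the pieces fit together to
closed oriented curves) and `Pool.Agent.H891R2.MT.Defs` (`UDiagram`, `Orients D U`: `D` is `U` with directions).

Vassiliev invariants: `Pool.Agent.H832R3.VJ.Defs` (`Dia`: an oriented diagram with the finite set of its marked
points; `Move`: relabelling, subdivision of strands and the Reidemeister moves; `sing`: extension to diagrams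
with double points by the Vassiliev skein relation; `IsVassiliev n v`: `v` is an invariant of oriented links of
order at most `n`; `Separated d X Y`: some integer valued Vassiliev invariant of order at most `d` has
different values on `X` and `Y`; `unknot`).

Templates: `Pool.Agent.H832R3.TW.Defs` (`Corner k`: the `4 k` corners of `k` boxes; a template is the list
`arcs` of the pairs of corners joined outside of the boxes; `twisted arcs n`: the diagram in which the box `e`
contains a row of `|n e|` crossings of the kind given by the sign of `n e`; `loops arcs S`: the number of
components if the boxes `e ∈ S` contain two vertical strands (along the row) and the other boxes two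
horizontal ones (the box is cut)).  Every link diagram whose crossings are divided into `k` twist regions
(rows of crossings of the same kind) is of the form `twisted arcs n`.

New definitions (`Pool.Agent.Run7.h509.Tp`, `Tp3`, `Defs`, `Vs`):

* `ClosedT arcs`: every corner is joined by an arc to exactly one other corner.
* `pieces arcs X`: the number of connected pieces of the diagram in which the boxes outside `X` are cut and every
  box in `X` counts as one piece with its four corners.
* `ReducedT arcs Y`: the diagram remains connected if one or two of the boxes in `Y` are cut.  (A box which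
  disconnects the diagram if it is cut is nugatory; two boxes which disconnect a plane diagram can be united by a
  flype.)
* `SpansT arcs Y`: `|Yᶜ| + pieces Yᶜ = loops ∅`; the boxes outside `Y`, as edges between the components of the
  state `∅` (all boxes cut), form a forest (always true for `Y = univ`).
* `gT arcs`: the rank function of the cycle matroid of the graph `G` whose vertices are the components of the
  state `∅` and whose edges are the boxes: `gT arcs X = pieces ∅ - pieces X`.
* `SP r Y C`: the minor of the matroid with rank function `r` with the elements `Y`, in which the elements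
  of `C` are contracted and all others are deleted, is series-parallel: it can be reduced to the empty
  matroid by deleting loops, contracting coloops, deleting one of two parallel elements and
  contracting one of two elements in series.
* `errT k c s C = (k + 1) (k + 1)! c^(k + 1) (4 k + s + 1 + C)`.
* `ordT k s = 2^k (12 k + 1) + 4 (k + s + 1)`.

So `SP (gT arcs) Y Yᶜ` says that the graph with the edges `Y` which is obtained from `G` by contracting all other
edges is series-parallel.  (`G` itself may be any graph.)

Proof: see `BalancedTwistOrder` and `SeriesParallelOrder`.  Here one evaluates at `u e = exp (2 π i y e / m)`, with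
rational numbers `y e` near `n e` and `m` near `M` such that `y e = a e m` for `e ∉ Y` and `u` is constant on the
clusters.  So `u e = 1` for `e ∉ Y` and `u e ≠ 1` for `e ∈ Y`, and the sum reduces to the matroid restricted to `Y`,
which is series-parallel; for such matroids it is not zero.
-/

set_option autoImplicit false

namespace Pool.Agent.Results.MP_5f6b43_gt.SeriesParallelPartOrder

open Finset Pool.Agent.H891R2.Jones Pool.Agent.H891R2.MT Pool.Agent.H832R3.TW Pool.Agent.H832R3.VJ Run7.h509 Run7.h509.Tp Run7.h509.Vs

/-- Let `arcs` be a closed template with `k` boxes, and let `Y` be a nonempty spanning set of boxes which are reduced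
and for which the graph with the edges `Y` (the other boxes contracted) is series-parallel.  Let `n ∈ ℤ^k`, with
arbitrary signs.

* Suppose that the numbers of crossings of the boxes outside `Y` are near to multiples of a number `M` and
  those of the boxes in `Y` are not: there are integers `a e`, `|a e| ≤ c`, with `|n e - a e M| ≤ C` for
  `e ∉ Y`, and `|n e - j M| > B (|j| + 1)` for all `e ∈ Y` and all integers `j`, where
  `B = errT k c 0 C < M`.  Then the link with `|n e|` crossings in the box `e`, with any directions, is separated
  from the unknot by a Vassiliev invariant of order at most `ordT k 0 = 2^k (12 k + 1) + 4 (k + 1)`, a number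
  which does not depend on `n`, `M`, `c` and `C`.
* This is the case if the boxes outside `Y` are short or have maximal length: `|n e| ≤ C` or
  `M ≤ |n e| ≤ M + C` for `e ∉ Y`, and `B < |n e| < M - 2 B` for `e ∈ Y`, where `B = errT k 1 0 C`. -/
theorem result {k : ℕ} (arcs : List (Corner k × Corner k)) (ho : ClosedT arcs) (Y : Finset (Fin k))
    (hY : Y.Nonempty) (hred : ReducedT arcs Y) (hsp : SpansT arcs Y) (hSP : SP (gT arcs) Y Yᶜ)
    (C : ℕ) (n : Fin k → ℤ) (M : ℤ)
    (h : (∃ (c : ℕ) (a : Fin k → ℤ), 1 ≤ c ∧ errT k c 0 C < M ∧
        (∀ e, e ∉ Y → |a e| ≤ c ∧ |n e - a e * M| ≤ C) ∧
        ∀ e ∈ Y, ∀ j : ℤ, errT k c 0 C * (|j| + 1) < |n e - j * M|) ∨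
      ((∀ e, e ∉ Y → |n e| ≤ C ∨ (M ≤ |n e| ∧ |n e| ≤ M + C)) ∧
        ∀ e ∈ Y, errT k 1 0 C < |n e| ∧ |n e| < M - 2 * errT k 1 0 C))
    (D : Diagram (Ribbon.Pt n)) (hD : Orients D (twisted arcs n)) (_ : D.IsClosed) :
    Separated (ordT k 0) ⟨_, inferInstance, D⟩ unknot := by
  have hk : 0 < k := by
    obtain ⟨e, _⟩ := hY
    exact Fin.pos e
  have key : ¬ FSpanLE 0 D := by
    rcases h with ⟨c, a, hc, hM, h1, h2⟩ | ⟨h1, h2⟩
    · exact resT (Or.inl ho) hY hred hsp hSP 0 C c hc n M a (fun e he => (h1 e he).1) hM
        (fun e he => (h1 e he).2) h2 D hD
    · exact maxT (Or.inl ho) hY hred hsp hSP 0 C n M h1 h2 D hD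
  by_contra hs
  exact key (one_span 0 (one_of_hidden arcs hk n D hD hs))

end Pool.Agent.Results.MP_5f6b43_gt.SeriesParallelPartOrder
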