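import Pool.Agent.Run7.h849.SC.Top

/-!
# Diagrams of signed even chains are separated from unlinks in linear order

The definitions (Vassiliev invariants, diagrams of signed chains) are in
`Pool.Agent.Run7.h849.SC.Dfn`, Seifert circles in `Pool.Agent.Run7.h849.Dfn`, the sliced oriented
diagrams and their isotopy in `Pool.Agent.Helper454.Wh.Defs`.
-/

set_option autoImplicit false

namespace Pool.Agent.Results.MP_5f6b43_gt.SignedChainUnlinks

open Pool.Agent.Helper454.Wh (OClosed)
open Run7.h849 (seif)
open Run7.h849.SC

/-- Let `w` be a base diagram with even chains of bands. Assume that all bands with a single crossing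
have the same sign, and that some band has at least two crossings. Then Vassiliev invariants of order
at most `53 s + 11 r + 1` separate `expand w` from the unlink with `r` components; `s` is the number of
the Seifert circles of `expand w`. -/
theorem result (w : List Bz) (hw : Chained w)
    (h : (∀ n ∈ bands w, n ≠ -1) ∨ (∀ n ∈ bands w, n ≠ 1)) (h2 : ∃ n ∈ bands w, 2 ≤ |n|) :
    OClosed (expand w) ∧
      ∀ r : ℕ, Separated (53 * seif (expand w) + 11 * r + 1) (expand w) (unlink r) :=
  ⟨closed_expand hw, main_unlink hw h h2⟩

end Pool.Agent.Results.MP_5f6b43_gt.SignedChainUnlinks
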